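import Mathlib.Algebra.Order.Archimedean.Real.Basic
import Mathlib.Algebra.BigOperators.Fin
import Mathlib.Algebra.Order.BigOperators.Group.Finset
import Mathlib.Data.Fintype.BigOperators
import Mathlib.Tactic

set_option autoImplicit false

/-!
# MP_4956c5_co : APS-fairness does not imply PROP1 for two agents, whatever the larger entitlement

For every `θ` with `1/2 < θ < 1` there is an instance with two agents of entitlements `θ, 1 - θ`,
the same additive valuation of goods for both, and an APS-fair allocation that is not PROP1.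
-/

namespace Pool.Agent.Results.MP_4956c5_co.BigGood

open Finset

/-- The additive extension of item values (or prices) to a set of items. -/
def val {m : ℕ} (u : Fin m → ℝ) (S : Finset (Fin m)) : ℝ := ∑ j ∈ S, u j

/-- A price vector: nonnegative prices with total `1`. -/
def IsPrice {m : ℕ} (p : Fin m → ℝ) : Prop := (∀ j, 0 ≤ p j) ∧ ∑ j, p j = 1

/-- The largest value of a set of items of total price at most `b`. -/
noncomputable def best {m : ℕ} (u p : Fin m → ℝ) (b : ℝ) : ℝ :=
  sSup {x | ∃ S : Finset (Fin m), val p S ≤ b ∧ x = val u S}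

/-- The AnyPrice share of an agent with item values `u` and entitlement `b`. -/
noncomputable def APS {m : ℕ} (u : Fin m → ℝ) (b : ℝ) : ℝ :=
  sInf {z | ∃ p : Fin m → ℝ, IsPrice p ∧ z = best u p b}

/-- The bundle of agent `i` in the allocation `A` of the items to the agents. -/
def bundle {n m : ℕ} (A : Fin m → Fin n) (i : Fin n) : Finset (Fin m) :=
  univ.filter (fun j => A j = i)

/-- `A` is APS-fair. -/
def APSFair {n m : ℕ} (v : Fin n → Fin m → ℝ) (w : Fin n → ℝ) (A : Fin m → Fin n) : Prop :=
  ∀ i, APS (v i) (w i) ≤ val (v i) (bundle A i)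

/-- `A` is (weighted) PROP1. -/
def PROP1 {n m : ℕ} (v : Fin n → Fin m → ℝ) (w : Fin n → ℝ) (A : Fin m → Fin n) : Prop :=
  ∀ i, w i * val (v i) univ ≤ val (v i) (bundle A i) ∨
    ∃ g, g ∉ bundle A i ∧ w i * val (v i) univ ≤ val (v i) (insert g (bundle A i))

lemma val_mono {m : ℕ} (u : Fin m → ℝ) (hu : ∀ j, 0 ≤ u j) {S T : Finset (Fin m)} (h : S ⊆ T) :
    val u S ≤ val u T :=
  sum_le_sum_of_subset_of_nonneg h (fun j _ _ => hu j)

lemma best_nonneg {m : ℕ} (u p : Fin m → ℝ) (hu : ∀ j, 0 ≤ u j) (b : ℝ) (hb : 0 ≤ b) :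
    0 ≤ best u p b := by
  unfold best
  apply le_csSup
  · refine ⟨val u univ, ?_⟩
    rintro x ⟨S, _, rfl⟩
    exact val_mono u hu (subset_univ S)
  · exact ⟨∅, by simpa [val] using hb, by simp [val]⟩

lemma APS_le {m : ℕ} (u p : Fin m → ℝ) (hu : ∀ j, 0 ≤ u j) (b c : ℝ) (hb : 0 ≤ b)
    (hp : IsPrice p) (h : ∀ S : Finset (Fin m), val p S ≤ b → val u S ≤ c) : APS u b ≤ c := by
  unfold APS
  have h1 : sInf {z | ∃ p : Fin m → ℝ, IsPrice p ∧ z = best u p b} ≤ best u p b := by
    apply csInf_le
    · refine ⟨0, ?_⟩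
      rintro z ⟨q, _, rfl⟩
      exact best_nonneg u q hu b hb
    · exact ⟨p, hp, rfl⟩
  refine h1.trans ?_
  unfold best
  apply csSup_le
  · exact ⟨0, ∅, by simpa [val] using hb, by simp [val]⟩
  · rintro x ⟨S, hS, rfl⟩
    exact h S hS

theorem result : ∀ θ : ℝ, 1 / 2 < θ → θ < 1 →
    ∃ (m : ℕ) (v : Fin 2 → Fin m → ℝ) (A : Fin m → Fin 2),
      (∀ i j, 0 ≤ v i j) ∧ v 0 = v 1 ∧ APSFair v ![θ, 1 - θ] A ∧ ¬ PROP1 v ![θ, 1 - θ] A := by
  intro θ h1 h2
  obtain ⟨s, hs⟩ := exists_nat_gt (1 / (2 * θ - 1))
  have hθ : 0 < 2 * θ - 1 := by linarith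
  have hs1 : 1 < s * (2 * θ - 1) := by
    rwa [div_lt_iff₀ hθ] at hs
  have hs0 : (0 : ℝ) < s := by
    have : 0 < 1 / (2 * θ - 1) := by positivity
    linarith
  let u : Fin (s + 1) → ℝ := fun j => if j = 0 then (s : ℝ) else 1
  let A : Fin (s + 1) → Fin 2 := fun j => if j = 0 then 0 else 1
  have hu : ∀ j, 0 ≤ u j := by
    intro j
    simp only [u]
    split_ifs <;> linarith
  have hb0 : bundle A 0 = {0} := by
    ext j
    by_cases h : j = 0 <;> simp [bundle, A, h]
  have hb1 : bundle A 1 = univ.erase 0 := by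
    ext j
    by_cases h : j = 0 <;> simp [bundle, A, h]
  have hv0 : val u {0} = s := by simp [val, u]
  have herase : ∀ c : ℝ, ∑ j ∈ (univ : Finset (Fin (s + 1))).erase 0,
      (if j = 0 then (c : ℝ) else 1) = s := by
    intro c
    rw [sum_congr rfl (g := fun _ => (1 : ℝ))]
    · simp
    · intro j hj
      rw [if_neg (ne_of_mem_erase hj)]
  have hv1 : val u (univ.erase 0) = s := herase s
  have hvu : val u univ = 2 * s := by
    have := add_sum_erase univ u (mem_univ (0 : Fin (s + 1)))
    unfold val at *
    rw [← this, hv1]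
    simp [u]
    ring
  refine ⟨s + 1, fun _ => u, A, fun _ => hu, rfl, ?_, ?_⟩
  · intro i
    fin_cases i
    · show APS u θ ≤ val u (bundle A 0)
      rw [hb0, hv0]
      let p : Fin (s + 1) → ℝ := fun j => if j = 0 then (1 + θ) / 2 else (1 - θ) / (2 * s)
      have hp0 : ∀ j, 0 ≤ p j := by
        intro j
        simp only [p]
        split_ifs
        · linarith
        · apply div_nonneg <;> linarith
      refine APS_le u p hu θ s (by linarith) ⟨hp0, ?_⟩ ?_
      · rw [← add_sum_erase univ p (mem_univ (0 : Fin (s + 1)))]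
        have : ∑ j ∈ (univ : Finset (Fin (s + 1))).erase 0, p j = (1 - θ) / 2 := by
          rw [sum_congr rfl (g := fun _ => (1 - θ) / (2 * s))]
          · rw [sum_const]
            simp
            field_simp
          · intro j hj
            simp only [p]
            rw [if_neg (ne_of_mem_erase hj)]
        rw [this]
        simp [p]
        ring
      · intro S hS
        have h0 : (0 : Fin (s + 1)) ∉ S := by
          intro h0
          have h3 : p 0 ≤ val p S := by
            have := val_mono p hp0 (singleton_subset_iff.2 h0)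
            simpa [val] using this
          have h4 : p 0 = (1 + θ) / 2 := by simp [p]
          rw [h4] at h3
          linarith
        rw [← hv1]
        apply val_mono u hu
        intro j hj
        rw [mem_erase]
        exact ⟨fun h => h0 (h ▸ hj), mem_univ _⟩
    · show APS u (1 - θ) ≤ val u (bundle A 1)
      rw [hb1, hv1]
      refine APS_le u (fun j => u j / (2 * s)) hu (1 - θ) s (by linarith) ⟨?_, ?_⟩ ?_
      · intro j
        exact div_nonneg (hu j) (by linarith)
      · rw [← sum_div]
        have : ∑ i, u i = 2 * s := hvu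
        rw [this]
        field_simp
      · intro S hS
        have h3 : val (fun j => u j / (2 * s)) S = val u S / (2 * s) := by
          unfold val
          rw [sum_div]
        rw [h3, div_le_iff₀ (by linarith)] at hS
        nlinarith
  · intro h
    have h0 := h 0
    simp only [Matrix.cons_val_zero] at h0
    rw [hvu, hb0] at h0
    rcases h0 with h0 | ⟨g, hg, h0⟩
    · rw [hv0] at h0
      nlinarith
    · rw [mem_singleton] at hg
      have h3 : val u (insert g {0}) = 1 + s := by
        unfold val
        rw [sum_insert (by simpa using hg), sum_singleton]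
        simp [u, hg]
      rw [h3] at h0
      nlinarith

end Pool.Agent.Results.MP_4956c5_co.BigGood
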